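import Pool.Agent.TH381.RM2.Cbr

/-!
The statements of the parts of the simulation in three stages, for arbitrary states at the
beginnings of the rows.
-/

set_option autoImplicit false

namespace Pool.Agent.TH381.RM3

open Pool.Agent.H584R2.Dg Pool.Agent.W614.Dg Pool.Agent.H539R2 Pool.Agent.TH381.RM
  Pool.Agent.TH381.RM2

/-- The rows obtained from `y`; the row `k` is read starting in the state `s k`. -/
def runs {S : Type} (τ : Dgsm S) (s : ℕ → τ.Q) (y : List S) : ℕ → List S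
  | 0 => y
  | k + 1 => τ.run (s k) (runs τ s y k)

/-- The pipeline of `l` stages fed by a belt carrying the word `y`: the letters of `y` are in the
cells `-l, -l - 1, ...`, the stage `k` (`1 ≤ k ≤ l`), in the cell `k - l`, starts in the state
`s (k - 1)`, the cells `1, 2, ...` are sinks. -/
def cb {S : Type} (τ : Dgsm S) (s : ℕ → τ.Q) (y : List S) (l : ℕ) : ℕ → ℤ → Cell (belt τ)
  | 0, i => if 1 ≤ i then none else if i + l ≤ 0 then some (none, (y[(-(i + l)).toNat]?).toList)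
      else some (some (s (i + l - 1).toNat), [])
  | t + 1, i => rule (belt τ) (cb τ s y l t (i - 1)) (cb τ s y l t i) (cb τ s y l t (i + 1))

/-- BELT3: the letters in front at the cell `0` are the letters of the row `l`. -/
def SBelt : Prop := ∀ (S : Type) (τ : Dgsm S) (s : ℕ → τ.Q) (y : List S) (l : ℕ), τ.NonErasing →
  (∀ T : ℕ, 4 * (runs τ s y l).length + l + 4 ≤ T →
    (List.range T).filterMap (fun t => (buf (cb τ s y l t 0)).head?) = runs τ s y l) ∧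
  ∀ L : ℕ, 1 ≤ L → (∀ q x, (τ.out q x).length ≤ L) →
    ∀ t i, (buf (cb τ s y l t i)).length ≤ L

/-- The pipeline with the whole word `y` in the source cell `-l`. -/
def cf {S : Type} (τ : Dgsm S) (s : ℕ → τ.Q) (y : List S) (l : ℕ) : ℕ → ℤ → Cell τ
  | 0, i => if i + l = 0 then some (τ.init, y) else if 1 ≤ i then none
      else some (s (i + l - 1).toNat, [])
  | t + 1, i => rule τ (cf τ s y l t (i - 1)) (cf τ s y l t i) (cf τ s y l t (i + 1))

/-- PIPE3 -/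
def SPipe : Prop := ∀ (S : Type) (τ : Dgsm S) (s : ℕ → τ.Q) (y : List S) (l : ℕ), τ.NonErasing →
  ∀ T : ℕ, 2 * (runs τ s y l).length + l + 3 ≤ T →
    (List.range T).filterMap (fun t => (buf (cf τ s y l t 0)).head?) = runs τ s y l

/-- A cellular automaton with states coded by numbers, the digits of `y` on a belt. -/
def cy (f : ℕ → ℕ → ℕ → ℕ) (q tab a2 : ℕ) (sg : ℕ → ℕ) (M y l : ℕ) : ℕ → ℤ → ℕ
  | 0, i => if 1 ≤ i then a2 else if i + l ≤ 0 then dg q tab (dg M y (-(i + l)).toNat)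
      else sg (i + l - 1).toNat
  | t + 1, i => f (cy f q tab a2 sg M y l t (i - 1)) (cy f q tab a2 sg M y l t i)
      (cy f q tab a2 sg M y l t (i + 1))

/-- SIMB3: the state of the cell `0` at the time `t` is computed within values `X ^ O(1)`. -/
def SSimB : Prop := ∀ (q M : ℕ) (f : ℕ → ℕ → ℕ → ℕ) (tab a2 : ℕ) (sg : ℕ → ℕ → ℕ),
  LS (fun ρ => sg (ρ 0) (ρ 1)) → a2 < q → (∀ X i, sg X i < q) →
  (∀ x y z, x < q → y < q → z < q → f x y z < q) →
  ∃ St : ℕ → ℕ → ℕ → ℕ → ℕ → ℕ → ℕ, LS (fun ρ => St (ρ 0) (ρ 1) (ρ 2) (ρ 3) (ρ 4) (ρ 5)) ∧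
    ∀ X B l o y t : ℕ, 1 ≤ B → t < B * B → (48 * B + 24) ^ (8 * q * B) ≤ X →
      St X B l o y t = cy f q tab a2 (fun i => sg X (o + i)) M y l t 0

/-- A coding of the states by numbers below `n0`. -/
structure QCoding {Q : Type} (n0 : ℕ) (cq : Q → ℕ) (dq : ℕ → Q) : Prop where
  lt : ∀ q, cq q < n0
  inv : ∀ q, dq (cq q) = q

/-- SEQ3: the pipeline of `k` stages fed by a word `y` whose letters are given by a function is
simulated step by step, within values polynomial in `Q ^ (k + 1)`. -/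
def SSeq : Prop := ∀ (S : Type) [Finite S] (τ : Dgsm S) (K M n0 : ℕ) (co : Option S → ℕ)
  (e : ℕ → Option S) (cq : τ.Q → ℕ) (dq : ℕ → τ.Q), τ.NonErasing →
  (∀ q x, (τ.out q x).length ≤ K) → 1 ≤ K → Coding M co e → QCoding n0 cq dq →
  ∃ (Q : ℕ) (hd : (ℕ → ℕ) → (ℕ → ℕ) → ℕ → ℕ → ℕ → ℕ), 1 ≤ Q ∧
    (∀ (G H : ℕ → (ℕ → ℕ) → ℕ) (X k t : (ℕ → ℕ) → ℕ), LS (fun ρ => G (ρ 0) (tl ρ)) →
      LS (fun ρ => H (ρ 0) (tl ρ)) → LS X → LS k → LS t →
      LS (fun ρ => hd (fun c => G c ρ) (fun i => H i ρ) (X ρ) (k ρ) (t ρ))) ∧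
    ∀ (g h : ℕ → ℕ) (X k t : ℕ) (y : List S) (s : ℕ → τ.Q), (∀ c, g c = co (y[c]?)) →
      (∀ i < k, h i = cq (s i)) → Q ^ (k + 1) ≤ X →
      hd g h X k t = co (buf (cf τ s y k t 0)).head?

/-- MAP3: the map of a dgsm on codes of words. -/
def SMap : Prop := ∀ (S : Type) [Finite S] (τ : Dgsm S) (K M n0 : ℕ) (co : Option S → ℕ)
  (e : ℕ → Option S) (cq : τ.Q → ℕ) (dq : ℕ → τ.Q), τ.NonErasing →
  (∀ q x, (τ.out q x).length ≤ K) → 1 ≤ K → Coding M co e → QCoding n0 cq dq →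
  ∃ (mp : ℕ → ℕ → ℕ → ℕ), LS (fun ρ => mp (ρ 0) (ρ 1) (ρ 2)) ∧
    ∀ X q v, M ^ (K * v.length + 1) ≤ X → mp X (cq q) (cl M co v) = cl M co (τ.run q v)

/-- MACH: the letters of a word generated by a machine are computed by an `LS` function. -/
def SMach : Prop := ∀ (Q : Type) [Finite Q] (k : ℕ) (m : Machine k Q) (v : ℕ → Q) (cq : Q → ℕ)
  (n0 : ℕ), (∀ q, cq q < n0) → m.Generates v →
  ∃ (A : ℕ) (sg : ℕ → ℕ → ℕ), LS (fun ρ => sg (ρ 0) (ρ 1)) ∧ (∀ X l, sg X l ≤ n0) ∧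
    ∀ (X l : ℕ) (r : ℝ), 0 ≤ r → m.SpaceLE (l + 1) r →
      A * (r + Real.log (l + 1) + 1) ≤ Real.log X → sg X l = cq (v l)

end Pool.Agent.TH381.RM3
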