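import Pool.Agent.TH381.RM3.Defs

/-!
The statement of the converse.
-/

set_option autoImplicit false

namespace Pool.Agent.TH381.RM3

open Pool.Agent.H584R2.Dg Pool.Agent.W614.Dg Pool.Agent.H539R2 Pool.Agent.TH381.RM
  Pool.Agent.TH381.RM2

/-- The sequence of the states after reading `τ^l(a)`. -/
def states {S : Type} (τ : Dgsm S) (a : S) (l : ℕ) : τ.Q := stAfter τ τ.init (τ.map^[l] [a])

/-- The space bound in terms of the number of the row. -/
noncomputable def rowSpace {S : Type} (τ : Dgsm S) (a : S) (n : ℕ) : ℝ :=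
  ((τ.map^[n - 1] [a]).length : ℝ) ^ (1 / 3 : ℝ) *
    (Real.log ((τ.map^[n - 1] [a]).length : ℝ) + 1)

/-- CONV: the states at the beginnings of the rows can be generated in the space of the word. -/
def SConv : Prop := SMach → ∀ (S : Type) [Finite S] (τ : Dgsm S) (a : S) (w : ℕ → S),
  τ.NonErasing → τ.IsLimit a w → InSpace (fun n => (n : ℝ) ^ (1 / 3 : ℝ) * (Real.log n + 1)) w →
  InSpace (rowSpace τ a) (states τ a)

end Pool.Agent.TH381.RM3
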