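import Pool.Agent.TH381.RM3.Letter
import Pool.Agent.TH381.RM2.Correct
import Pool.Agent.TH381.RM3.Conv

/-!
Correctness of the letter function with given start states of the rows.
-/

set_option autoImplicit false
set_option linter.unusedVariables false

namespace Pool.Agent.TH381.RM3

open Pool.Agent.H584R2.Dg Pool.Agent.W614.Dg Pool.Agent.H539R2 Pool.Agent.TH381.RM
  Pool.Agent.TH381.RM2

/-- the data are correct -/
structure DataOK {S : Type} (P : Data) (τ : Dgsm S) (u : List S) (M q Q : ℕ)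
    (co : Option S → ℕ) (cq : τ.Q → ℕ) : Prop where
  y0 : P.y0 = cl M co u
  ln : ∀ v, P.ln (cl M co v) = v.length
  lt : ∀ v, cl M co v < M ^ v.length
  mp : ∀ X q v, M ^ (P.K * v.length + 1) ≤ X →
    P.mp X (cq q) (cl M co v) = cl M co (τ.run q v)
  hB : ∀ X B l o t y (s : ℕ → τ.Q), 1 ≤ B → t < B * B → (48 * B + 24) ^ (8 * q * B) ≤ X →
    (∀ j < l, P.sg X (o + j) = cq (s j)) →
    P.hB X B l o (cl M co y) t = co (buf (cb τ s y l t 0)).head?
  hd : ∀ (g h : ℕ → ℕ) (X k t : ℕ) (y : List S) (s : ℕ → τ.Q), (∀ c, g c = co (y[c]?)) →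
    (∀ i < k, h i = cq (s i)) → Q ^ (k + 1) ≤ X →
    P.hd g h X k t = co (buf (cf τ s y k t 0)).head?

section

variable {S : Type} {P : Data} {τ : Dgsm S} {u : List S} {M q Q : ℕ} {co : Option S → ℕ}
  {e : ℕ → Option S} {cq : τ.Q → ℕ}

theorem D2_spec (hbelt : SBelt) (hP : DataOK P τ u M q Q co cq) (hco : Coding M co e)
    (hne : τ.NonErasing) {X r i o : ℕ} {y : List S} (s : ℕ → τ.Q) (hr : 1 ≤ r)
    (hX : (48 * B2 P.K r + 24) ^ (8 * q * B2 P.K r) ≤ X) (hi : i ≤ r * r)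
    (hs : ∀ j < i, P.sg X (o + j) = cq (s j))
    (hy : (runs τ s y i).length ≤ P.K * (r * r)) :
    P.D2 X r i o (cl M co y) = (runs τ s y i).length ∧
    ∀ j, P.l2 X r i o (cl M co y) j = co ((runs τ s y i)[j]?) := by
  have hT : 4 * (runs τ s y i).length + i + 4 ≤ T2 P.K r := by
    unfold T2
    nlinarith
  have hB : 1 ≤ B2 P.K r := by
    unfold B2
    exact Nat.mul_pos (by omega) hr
  have hh : ∀ t < T2 P.K r, P.h2 X r i o (cl M co y) t = co (buf (cb τ s y i t 0)).head? := by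
    intro t ht
    exact hP.hB X (B2 P.K r) i o t y s hB (ht.trans (T2_lt hr)) hX hs
  have hl := (hbelt S τ s y i hne).1 _ hT
  constructor
  · rw [← hl]
    exact cntf_spec hco hh
  · intro j
    rw [← hl]
    exact ltrf_spec hco hh j

theorem D3_spec (hpipe : SPipe) (hP : DataOK P τ u M q Q co cq) (hco : Coding M co e)
    (hne : τ.NonErasing) {X r i o n k : ℕ} {y y' : List S} (s : ℕ → τ.Q)
    (hy : ∀ j, P.l2 X r i o (cl M co y) j = co (y'[j]?)) (hQ : Q ^ (k + 1) ≤ X) (hk : k ≤ n)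
    (hs : ∀ j < k, P.sg X (o + i + j) = cq (s j))
    (hy' : (runs τ s y' k).length ≤ P.K * (n + r * r)) :
    P.D3 X r i o (cl M co y) n k = (runs τ s y' k).length ∧
    ∀ j, P.l3 X r i o (cl M co y) n k j = co ((runs τ s y' k)[j]?) := by
  have hT : 2 * (runs τ s y' k).length + k + 3 ≤ T3 P.K r n := by
    unfold T3
    nlinarith
  have hh : ∀ t < T3 P.K r n,
      P.h3 X r i o (cl M co y) k t = co (buf (cf τ s y' k t 0)).head? := by
    intro t ht
    exact hP.hd _ _ X k t y' s hy hs hQ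
  have hl := hpipe S τ s y' k hne _ hT
  constructor
  · rw [← hl]
    exact cntf_spec hco hh
  · intro j
    rw [← hl]
    exact ltrf_spec hco hh j

end

/-- The letter function is correct. -/
theorem Lt_spec (hbelt : SBelt) (hpipe : SPipe) {S : Type} {P : Data} {τ : Dgsm S}
    {M q Q : ℕ} {co : Option S → ℕ} {e : ℕ → Option S} {cq : τ.Q → ℕ} {a : S} {u : List S}
    {w : ℕ → S} (s : ℕ → τ.Q)
    (hP : DataOK P τ u M q Q co cq) (hco : Coding M co e) (hcoa : P.coa = co (some a))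
    (hne : τ.NonErasing) (hw : τ.IsLimit a w) (hu : τ.out τ.init a = a :: u) (hune : u ≠ [])
    (hs : ∀ l, τ.run (s l) (Dg.cb τ (τ.next τ.init a) u l).2 =
      (Dg.cb τ (τ.next τ.init a) u (l + 1)).2)
    (hK : ∀ q x, (τ.out q x).length ≤ P.K) (hK1 : 1 ≤ P.K)
    (hKu : u.length ≤ P.K) (hQ : 1 ≤ Q) {n X : ℕ}
    (hsg : ∀ i, (τ.map^[i] [a]).length ≤ n → P.sg X i = cq (s i))
    (hX1 : (48 * B2 P.K (cbr n) + 24) ^ (8 * q * B2 P.K (cbr n)) ≤ X)
    (hX2 : Q ^ cbr n ≤ X) (hX3 : M ^ (P.K * cbr n + 1) ≤ X) :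
    P.Lt n X = co (some (w n)) := by
  have hM : 1 ≤ M := by have := hco.lt none; omega
  unfold Data.Lt
  by_cases hn : n = 0
  · rw [if_pos hn, hcoa, hn, word_zero hw]
  rw [if_neg hn]
  obtain ⟨r, hr⟩ : ∃ r, r = cbr n := ⟨_, rfl⟩
  have hr1 : 1 ≤ r := by rw [hr]; exact cbr_pos n
  have hnr : n < r ^ 3 := by rw [hr]; exact lt_cbr n
  have hnr' : n < r * r * r := by
    calc n < r ^ 3 := hnr
      _ = _ := by ring
  rw [← hr] at hX1 hX2 hX3 ⊢
  -- the rows
  obtain ⟨R, hR⟩ : ∃ R : ℕ → List S, R = fun l => (Dg.cb τ (τ.next τ.init a) u l).2 := ⟨_, rfl⟩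
  obtain ⟨D, hD⟩ : ∃ D : ℕ → ℕ, D = fun l => (R l).length := ⟨_, rfl⟩
  obtain ⟨N, hN⟩ : ∃ N : ℕ → ℕ, N = fun l => (τ.map^[l] [a]).length := ⟨_, rfl⟩
  have hR0 : R 0 = u := by rw [hR]; rfl
  have hRs : ∀ l, τ.run (s l) (R l) = R (l + 1) := by intro l; rw [hR]; exact hs l
  have hRD : ∀ l, (R l).length = D l := by intro l; rw [hD]
  have hsplit : ∀ l, τ.map^[l + 1] [a] = τ.map^[l] [a] ++ R l := by
    intro l; rw [hR]; exact (Dg.map_iter hu l).1
  have hadd : ∀ l k, runs τ (fun j => s (l + j)) (R l) k = R (l + k) := by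
    intro l k
    induction k with
    | zero => rfl
    | succ k ih =>
      show τ.run (s (l + k)) (runs τ (fun j => s (l + j)) (R l) k) = R (l + k + 1)
      rw [ih, hRs]
  have hN0 : N 0 = 1 := by rw [hN]; rfl
  have hNs : ∀ l, N (l + 1) = N l + D l := by
    intro l
    rw [hN, hD]
    show (τ.map^[l + 1] [a]).length = _
    rw [hsplit, List.length_append]
  have hD1 : ∀ l, 1 ≤ D l := by
    intro l; rw [hD, hR]; exact Dg.cb_pos hne _ hune l
  have hDK : ∀ l, D (l + 1) ≤ P.K * D l := by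
    intro l; rw [hD]; show (R (l + 1)).length ≤ _; rw [← hRs]; exact run_le hK _ _
  have hDmono : Monotone D := by
    apply monotone_nat_of_le_succ
    intro l
    rw [hD]
    show _ ≤ (R (l + 1)).length
    rw [← hRs]
    exact run_length hne _ _
  have hNsum : ∀ l k, N l + k * D l ≤ N (l + k) := by
    intro l k
    induction k with
    | zero => simp
    | succ k ih =>
      have h1 : l + (k + 1) = l + k + 1 := by ring
      have h2 : D l ≤ D (l + k) := hDmono (by omega)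
      rw [h1, hNs]
      nlinarith
  have hNl : ∀ l, l ≤ N l := by
    intro l
    induction l with
    | zero => omega
    | succ l ih => rw [hNs]; have := hD1 l; omega
  have hNmono : Monotone N := by
    apply monotone_nat_of_le_succ
    intro l
    rw [hNs]
    omega
  have hsgN : ∀ i, N i ≤ n → P.sg X i = cq (s i) := by
    intro i hi
    rw [hN] at hi
    exact hsg i hi
  -- the first loop
  have hyr : ∀ x, (∀ i < x, D i ≤ r ∧ N i + D i ≤ n) → N x ≤ n → P.yr X x = cl M co (R x) := by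
    intro x
    induction x with
    | zero =>
      intro _ _
      show P.y0 = _
      rw [hP.y0, hR0]
    | succ x ih =>
      intro hx hxn
      have hNx : N x ≤ n := (hNmono (Nat.le_succ x)).trans hxn
      have h0 := ih (fun i hi => hx i (by omega)) hNx
      show min (P.mp X (P.sg X x) (P.yr X x)) X = _
      have hDx := (hx x (by omega)).1
      have h1 : M ^ (P.K * (R x).length + 1) ≤ X := by
        refine le_trans (Nat.pow_le_pow_right hM ?_) hX3
        rw [hRD]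
        have := Nat.mul_le_mul_left P.K hDx
        omega
      rw [h0, hsgN x hNx, hP.mp X _ _ h1, hRs]
      apply min_eq_left
      refine (hP.lt _).le.trans ?_
      refine le_trans (Nat.pow_le_pow_right hM ?_) hX3
      rw [hRD]
      have h2 := hDK x
      have := Nat.mul_le_mul_left P.K hDx
      omega
  have hw1m := fun m => walk_spec (b := r) hNs (by rw [hN0]; omega : N 0 ≤ n) m
  have hw1' := walk_end (b := r) hNs (by rw [hN0]; omega : N 0 ≤ n) hD1
  rw [hN0] at hw1m hw1'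
  have hloop1 : P.loop1 X r n (n + 1) = walk D r n 1 (n + 1) := by
    apply walk_congr
    intro m _
    obtain ⟨h1, h2, h3⟩ := hw1m m
    rw [hyr _ h3 h2, hP.ln, hRD]
  have hx1N1 : P.x1 n X = (walk D r n 1 (n + 1)).1 ∧ P.N1 n X = (walk D r n 1 (n + 1)).2 := by
    unfold Data.x1 Data.N1
    rw [← hr, hloop1]
    exact ⟨rfl, rfl⟩
  have hw1 := hw1m (n + 1)
  obtain ⟨l1, hl1⟩ : ∃ l1, l1 = (walk D r n 1 (n + 1)).1 := ⟨_, rfl⟩
  rw [← hl1] at hw1 hw1' hx1N1
  rw [hw1.1] at hx1N1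
  obtain ⟨-, hw1b, hw1c⟩ := hw1
  have hy1 : P.y1 n X = cl M co (R l1) := by
    unfold Data.y1
    rw [hx1N1.1, hyr l1 hw1c hw1b]
  have hDl1 : D l1 ≤ P.K * r := by
    cases hc : l1 with
    | zero =>
      have : D 0 ≤ P.K := by rw [← hRD, hR0]; exact hKu
      nlinarith
    | succ l0 =>
      have h1 := hDK l0
      have h2 := (hw1c l0 (by omega)).1
      have h3 := Nat.mul_le_mul_left P.K h2
      omega
  -- the second loop
  have hNs2 : ∀ x, N (l1 + (x + 1)) = N (l1 + x) + D (l1 + x) := fun x => hNs (l1 + x)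
  have hbig2 : ∀ x, (∀ i < x, D (l1 + i) ≤ r * r ∧ N (l1 + i) + D (l1 + i) ≤ n) →
      N (l1 + x) ≤ n → x ≤ r * r ∧ D (l1 + x) ≤ P.K * (r * r) := by
    intro x hx hxn
    constructor
    · rcases Nat.eq_zero_or_pos x with h0 | h0
      · omega
      · have h1 := (hx 0 h0).2
        rw [Nat.add_zero] at h1
        have h2 : r < D l1 := by
          by_contra hc
          exact hw1' ⟨by omega, h1⟩
        have h3 := hNsum l1 x
        have h4 : x * r ≤ x * D l1 := Nat.mul_le_mul_left _ h2.le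
        by_contra hc
        push Not at hc
        have h5 : r * r * r ≤ x * r := Nat.mul_le_mul_right _ hc.le
        omega
    · cases x with
      | zero =>
        rw [Nat.add_zero]
        refine hDl1.trans (Nat.mul_le_mul_left _ ?_)
        exact Nat.le_mul_of_pos_left _ hr1
      | succ x =>
        exact (hDK (l1 + x)).trans (Nat.mul_le_mul_left _ (hx x (by omega)).1)
  have hD2 : ∀ x, x ≤ r * r → D (l1 + x) ≤ P.K * (r * r) → N (l1 + x) ≤ n →
      P.D2 X r x l1 (cl M co (R l1)) = D (l1 + x) ∧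
      ∀ j, P.l2 X r x l1 (cl M co (R l1)) j = co ((R (l1 + x))[j]?) := by
    intro x hx1 hx2 hx3
    have := D2_spec hbelt hP hco hne (o := l1) (fun j => s (l1 + j)) hr1 hX1 hx1
      (fun j hj => hsgN (l1 + j) ((hNmono (by omega)).trans hx3))
      (y := R l1) (by rw [hadd, hRD]; exact hx2)
    rw [hadd, hRD] at this
    exact this
  have hw2 := fun m => walk_spec (D := fun x => D (l1 + x)) (N := fun x => N (l1 + x))
    (b := r * r) hNs2 (by simpa using hw1b) m
  have hw2' := walk_end (D := fun x => D (l1 + x)) (N := fun x => N (l1 + x))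
    (b := r * r) hNs2 (by simpa using hw1b) (fun x => hD1 _)
  simp only [Nat.add_zero] at hw2 hw2'
  have hloop2 : P.loop2 X r n l1 (cl M co (R l1)) (N l1) (n + 1) =
      walk (fun x => D (l1 + x)) (r * r) n (N l1) (n + 1) := by
    apply walk_congr
    intro m _
    obtain ⟨h1, h2, h3⟩ := hw2 m
    obtain ⟨h4, h5⟩ := hbig2 _ h3 h2
    exact (hD2 _ h4 h5 h2).1
  have hi2N2 : P.i2 n X = (walk (fun x => D (l1 + x)) (r * r) n (N l1) (n + 1)).1 ∧
      P.N2 n X = (walk (fun x => D (l1 + x)) (r * r) n (N l1) (n + 1)).2 := by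
    unfold Data.i2 Data.N2
    rw [← hr, hy1, hx1N1.1, hx1N1.2, hloop2]
    exact ⟨rfl, rfl⟩
  obtain ⟨h2a, h2b, h2c⟩ := hw2 (n + 1)
  obtain ⟨x2, hx2⟩ : ∃ x2, x2 = (walk (fun x => D (l1 + x)) (r * r) n (N l1) (n + 1)).1 :=
    ⟨_, rfl⟩
  rw [← hx2] at hi2N2 h2a h2b h2c hw2'
  rw [h2a] at hi2N2
  obtain ⟨hx2a, hx2b⟩ := hbig2 x2 h2c h2b
  obtain ⟨-, hl2⟩ := hD2 x2 hx2a hx2b h2b
  obtain ⟨l2, hl2def⟩ : ∃ l2, l2 = l1 + x2 := ⟨_, rfl⟩
  rw [← hl2def] at hi2N2 h2a h2b hw2' hx2b hl2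
  -- the third loop
  have hNs3 : ∀ x, N (l2 + (x + 1)) = N (l2 + x) + D (l2 + x) := fun x => hNs (l2 + x)
  have hbig3 : ∀ x, (∀ i < x, D (l2 + i) ≤ n ∧ N (l2 + i) + D (l2 + i) ≤ n) →
      N (l2 + x) ≤ n → x + 1 ≤ r ∧ x ≤ n ∧ D (l2 + x) ≤ P.K * (n + r * r) := by
    intro x hx hxn
    refine ⟨?_, ?_, ?_⟩
    · rcases Nat.eq_zero_or_pos x with h0 | h0
      · omega
      · have h1 := (hx 0 h0).2
        rw [Nat.add_zero] at h1
        have h2 : r * r < D l2 := by
          by_contra hc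
          exact hw2' ⟨by omega, h1⟩
        have h3 := hNsum l2 x
        have h4 : x * (r * r) ≤ x * D l2 := Nat.mul_le_mul_left _ h2.le
        by_contra hc
        push Not at hc
        have h5 : r * (r * r) ≤ x * (r * r) := Nat.mul_le_mul_right _ (by omega)
        have h6 : r * (r * r) = r * r * r := by ring
        omega
    · have := hNl (l2 + x)
      omega
    · cases x with
      | zero =>
        rw [Nat.add_zero]
        refine hx2b.trans (Nat.mul_le_mul_left _ ?_)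
        omega
      | succ x =>
        refine (hDK (l2 + x)).trans (Nat.mul_le_mul_left _ ?_)
        have := (hx x (by omega)).1
        omega
  have hD3 : ∀ x, x + 1 ≤ r → x ≤ n → D (l2 + x) ≤ P.K * (n + r * r) → N (l2 + x) ≤ n →
      P.D3 X r x2 l1 (cl M co (R l1)) n x = D (l2 + x) ∧
      ∀ j, P.l3 X r x2 l1 (cl M co (R l1)) n x j = co ((R (l2 + x))[j]?) := by
    intro x hx1 hx2' hx3 hx4
    have := D3_spec hpipe hP hco hne (fun j => s (l2 + j)) hl2
      ((Nat.pow_le_pow_right hQ hx1).trans hX2) hx2'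
      (fun j hj => by
        rw [← hl2def]
        exact hsgN (l2 + j) ((hNmono (by omega)).trans hx4))
      (by rw [hadd, hRD]; exact hx3)
    rw [hadd, hRD] at this
    exact this
  have hw3 := fun m => walk_spec (D := fun x => D (l2 + x)) (N := fun x => N (l2 + x))
    (b := n) hNs3 (by simpa using h2b) m
  have hw3' := walk_end (D := fun x => D (l2 + x)) (N := fun x => N (l2 + x))
    (b := n) hNs3 (by simpa using h2b) (fun x => hD1 _)
  simp only [Nat.add_zero] at hw3 hw3'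
  have hloop3 : P.loop3 X r n l1 (cl M co (R l1)) x2 (N l2) (n + 1) =
      walk (fun x => D (l2 + x)) n n (N l2) (n + 1) := by
    apply walk_congr
    intro m _
    obtain ⟨h1, h2, h3⟩ := hw3 m
    obtain ⟨h4, h5, h6⟩ := hbig3 _ h3 h2
    exact (hD3 _ h4 h5 h6 h2).1
  have hk3N3 : P.k3 n X = (walk (fun x => D (l2 + x)) n n (N l2) (n + 1)).1 ∧
      P.N3 n X = (walk (fun x => D (l2 + x)) n n (N l2) (n + 1)).2 := by
    unfold Data.k3 Data.N3
    rw [← hr, hy1, hx1N1.1, hi2N2.1, hi2N2.2, hloop3]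
    exact ⟨rfl, rfl⟩
  obtain ⟨h3a, h3b, h3c⟩ := hw3 (n + 1)
  obtain ⟨x3, hx3⟩ : ∃ x3, x3 = (walk (fun x => D (l2 + x)) n n (N l2) (n + 1)).1 :=
    ⟨_, rfl⟩
  rw [← hx3] at hk3N3 h3a h3b h3c hw3'
  rw [h3a] at hk3N3
  obtain ⟨hx3a, hx3b, hx3c⟩ := hbig3 x3 h3c h3b
  obtain ⟨-, hl3⟩ := hD3 x3 hx3a hx3b hx3c h3b
  rw [hi2N2.1, hx1N1.1, hy1, hk3N3.1, hk3N3.2, hl3]
  have hlt : n - N (l2 + x3) < (R (l2 + x3)).length := by
    rw [hRD]
    have : ¬ (N (l2 + x3) + D (l2 + x3) ≤ n) := by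
      intro hc
      exact hw3' ⟨by omega, hc⟩
    omega
  have h1 := hw.2.2 (l2 + x3 + 1)
  rw [hsplit] at h1
  have e2 : (τ.map^[l2 + x3] [a]).length = N (l2 + x3) := by rw [hN]
  have h4 : n < (τ.map^[l2 + x3] [a] ++ R (l2 + x3)).length := by
    rw [List.length_append, e2]
    omega
  have h3 := h1 _ h4
  rw [List.getElem?_eq_getElem hlt, ← h3]
  congr 2
  rw [List.getElem_append_right (by rw [e2]; omega)]
  congr 1
  rw [e2]

end Pool.Agent.TH381.RM3
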