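import Pool.Agent.TH381.RM3.Correct
import Pool.Agent.TH381.RM2.Final
import Pool.Agent.TH621.RM3.Belt
import Pool.Agent.TH621.RM3.Pipe
import Pool.Agent.TH470.RM3.SimS
import Pool.Agent.TH584.RM3.Seq
import Pool.Agent.TH323.RM3.Map

/-!
The space for words of arbitrary dgsm's in terms of the start states of the rows.
-/

set_option autoImplicit false

namespace Pool.Agent.TH381.RM3

open Pool.Agent.H584R2.Dg Pool.Agent.W614.Dg Pool.Agent.H539R2 Pool.Agent.TH381.RM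
  Pool.Agent.TH381.RM2

theorem exists_qcoding {Q : Type} [Finite Q] (q0 : Q) :
    ∃ (n0 : ℕ) (cq : Q → ℕ) (dq : ℕ → Q), QCoding n0 cq dq := by
  classical
  obtain ⟨n, ⟨e⟩⟩ := Finite.exists_equiv_fin Q
  refine ⟨n, fun q => (e q : ℕ), fun i => if h : i < n then e.symm ⟨i, h⟩ else q0, ?_, ?_⟩
  · intro q
    exact (e q).isLt
  · intro q
    show (if h : (e q : ℕ) < n then e.symm ⟨_, h⟩ else q0) = q
    rw [dif_pos (e q).isLt]
    simp

theorem log_48 : (1 : ℝ) ≤ Real.log 48 := by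
  rw [Real.le_log_iff_exp_le (by norm_num)]
  have := Real.exp_one_lt_d9
  linarith

/-- The logarithm of the size of the numbers. -/
theorem log_size {n X c d : ℕ} (hn : 1 ≤ n) (hd : 1 ≤ d)
    (hX : (48 * (d * cbr n) + 24) ^ (c * (d * cbr n)) ≤ X) :
    (c : ℝ) / 3 * ((n : ℝ) ^ (1 / 3 : ℝ) * (Real.log n + 1)) ≤ Real.log X := by
  obtain ⟨B, hB⟩ : ∃ B, B = d * cbr n := ⟨_, rfl⟩
  rw [← hB] at hX
  have hn' : (1 : ℝ) ≤ n := by exact_mod_cast hn
  have hn0 : (0 : ℝ) ≤ n := by linarith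
  have h3 : (0 : ℝ) ≤ (n : ℝ) ^ (1 / 3 : ℝ) := Real.rpow_nonneg hn0 _
  have h1 : (n : ℝ) ^ (1 / 3 : ℝ) ≤ cbr n := by
    have h2 : (n : ℝ) ≤ (cbr n : ℝ) ^ 3 := by exact_mod_cast (lt_cbr n).le
    calc (n : ℝ) ^ (1 / 3 : ℝ) ≤ ((cbr n : ℝ) ^ 3) ^ (1 / 3 : ℝ) :=
          Real.rpow_le_rpow hn0 h2 (by norm_num)
      _ = cbr n := by
          rw [← Real.rpow_natCast, ← Real.rpow_mul (Nat.cast_nonneg _)]
          norm_num
  have h4 : (cbr n : ℝ) ≤ B := by
    have : cbr n ≤ B := by rw [hB]; exact Nat.le_mul_of_pos_left _ hd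
    exact_mod_cast this
  have h5 : (n : ℝ) ^ (1 / 3 : ℝ) ≤ B := h1.trans h4
  have h6 : (1 / 3 : ℝ) * (Real.log n + 1) ≤ Real.log (48 * (B : ℝ) + 24) := by
    have hpos : (0 : ℝ) < (n : ℝ) ^ (1 / 3 : ℝ) := Real.rpow_pos_of_pos (by linarith) _
    have h7 : Real.log (48 * (n : ℝ) ^ (1 / 3 : ℝ)) ≤ Real.log (48 * (B : ℝ) + 24) := by
      apply Real.log_le_log (by positivity)
      linarith
    rw [Real.log_mul (by norm_num) hpos.ne', Real.log_rpow (by linarith)] at h7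
    have := log_48
    linarith
  have h8 : Real.log (((48 * B + 24) ^ (c * B) : ℕ) : ℝ) ≤ Real.log X := by
    apply Real.log_le_log
    · exact_mod_cast Nat.pos_of_ne_zero (by positivity)
    · exact_mod_cast hX
  have h9 : Real.log (((48 * B + 24) ^ (c * B) : ℕ) : ℝ) =
      c * (B * Real.log (48 * (B : ℝ) + 24)) := by
    push_cast
    rw [Real.log_pow]
    push_cast
    ring
  have hlogn : 0 ≤ Real.log n := Real.log_nonneg hn'
  rw [h9] at h8
  refine le_trans ?_ h8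
  calc (c : ℝ) / 3 * ((n : ℝ) ^ (1 / 3 : ℝ) * (Real.log n + 1)) =
        c * ((n : ℝ) ^ (1 / 3 : ℝ) * ((1 / 3 : ℝ) * (Real.log n + 1))) := by ring
    _ ≤ c * (B * Real.log (48 * (B : ℝ) + 24)) := by
      apply mul_le_mul_of_nonneg_left _ (Nat.cast_nonneg c)
      apply mul_le_mul h5 h6 (by positivity) (Nat.cast_nonneg B)

theorem inSpace_seq (hmach : SMach) {S : Type} [Finite S] (τ : Dgsm S) (a : S) (w : ℕ → S)
    (hne : τ.NonErasing) (hw : τ.IsLimit a w) (s : ℕ → τ.Q) {u : List S}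
    (hu : τ.out τ.init a = a :: u) (hune : u ≠ [])
    (hs : ∀ l, τ.run (s l) (Dg.cb τ (τ.next τ.init a) u l).2 =
      (Dg.cb τ (τ.next τ.init a) u (l + 1)).2)
    (hsp : InSpace (rowSpace τ a) s) :
    InSpace (fun n => (n : ℝ) ^ (1 / 3 : ℝ) * (Real.log n + 1)) w := by
  have := τ.finQ
  obtain ⟨K0, hK0⟩ := exists_bound τ
  obtain ⟨K, hKdef⟩ : ∃ K, K = K0 + u.length := ⟨_, rfl⟩
  have hul : 1 ≤ u.length := List.length_pos_of_ne_nil hune
  have hK1 : 1 ≤ K := by omega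
  have hK : ∀ q x, (τ.out q x).length ≤ K := fun q x => (hK0 q x).trans (by omega)
  have hKu : u.length ≤ K := by omega
  obtain ⟨M, co, e, h0, h1, h2, h3⟩ := exists_letters S
  have hco : Coding M co e := ⟨h0, h1, h2, h3⟩
  obtain ⟨n0, cq, dq, hcq⟩ := exists_qcoding τ.init
  obtain ⟨-, ln, -, hln, hln', hdig, hlt, -⟩ := TH440.RM2.map_code S τ K M co e hne hK hK1 hco
  obtain ⟨mp, hmp, hmp'⟩ := TH323.RM3.map3 S τ K M n0 co e cq dq hne hK hK1 hco hcq
  obtain ⟨Q, hd, hQ, hdLS, hd'⟩ := TH584.RM3.seq3 S τ K M n0 co e cq dq hne hK hK1 hco hcq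
  obtain ⟨k, m, C, hm, hC⟩ := hsp
  obtain ⟨A, sg, hsgLS, -, hsg⟩ := hmach τ.Q k m s cq n0 hcq.lt hm
  obtain ⟨q, hB, hq, hBLS, hB'⟩ := stage2 TH621.RM3.belt3 TH470.RM3.sim_b3 τ hne hK hK1 hco hcq
    hdig sg hsgLS
  obtain ⟨P, hP⟩ : ∃ P : Data, P = ⟨K, cl M co u, co (some a), hB, hd, mp, ln, sg⟩ := ⟨_, rfl⟩
  have hPK : P.K = K := by rw [hP]
  have hPsg : P.sg = sg := by rw [hP]
  have hLS : DataLS P := by
    rw [hP]
    exact ⟨hBLS, hdLS, hmp, hln, hsgLS⟩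
  have hOK : DataOK P τ u M q Q co cq := by
    rw [hP]
    exact ⟨rfl, hln', hlt, hmp', hB', hd'⟩
  have hcoa : P.coa = co (some a) := by rw [hP]
  obtain ⟨c0, hc0⟩ := exists_nat_ge (3 * (A * (|C| + 1)))
  refine TH304.RM2.fin S w M (8 * q + Q * 1 + M * (K + 1) + c0) (2 * K + 3) co e P.Lt hco
    (by omega) (by omega) (Data.LS_Lt hLS) ?_
  intro n X hX
  by_cases hn : n = 0
  · subst hn
    unfold Data.Lt
    rw [if_pos rfl, hcoa, word_zero hw]
  have hn1 : 1 ≤ n := Nat.pos_of_ne_zero hn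
  have hlogX := log_size hn1 (by omega) hX
  obtain ⟨r, hr⟩ : ∃ r, r = cbr n := ⟨_, rfl⟩
  have hr1 : 1 ≤ r := by rw [hr]; exact cbr_pos n
  rw [← hr] at hX
  have hB2 : B2 P.K r = (2 * K + 3) * r := by rw [hPK]; rfl
  obtain ⟨B, hBdef⟩ : ∃ B, B = (2 * K + 3) * r := ⟨_, rfl⟩
  rw [← hBdef] at hX hB2
  have hsB : r ≤ B := by rw [hBdef]; exact Nat.le_mul_of_pos_left _ (by omega)
  refine Lt_spec TH621.RM3.belt3 TH621.RM3.pipe3 s hOK hco hcoa hne hw hu hune hs
    (by rw [hPK]; exact hK) (by rw [hPK]; exact hK1) (by rw [hPK]; exact hKu) hQ ?_ ?_ ?_ ?_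
  · intro i hi
    rw [hPsg]
    have hn' : (1 : ℝ) ≤ n := by exact_mod_cast hn1
    have hi1 : i + 1 ≤ (τ.map^[i] [a]).length := Dg.iter_length hne hu hune i
    have hZ1 : (τ.map^[i] [a]).length ≤ n := hi
    obtain ⟨G, hG⟩ : ∃ G : ℝ, G = ((τ.map^[i] [a]).length : ℝ) := ⟨_, rfl⟩
    have hG1 : (1 : ℝ) ≤ G := by rw [hG]; exact_mod_cast (by omega : 1 ≤ (τ.map^[i] [a]).length)
    have hGn : G ≤ n := by rw [hG]; exact_mod_cast hZ1
    have hlogG : 0 ≤ Real.log G := Real.log_nonneg hG1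
    have hlogGn : Real.log G ≤ Real.log n := Real.log_le_log (by linarith) hGn
    have hrs : rowSpace τ a (i + 1) = G ^ (1 / 3 : ℝ) * (Real.log G + 1) := by
      unfold rowSpace
      rw [Nat.add_sub_cancel, ← hG]
    have hp1 : (0 : ℝ) ≤ G ^ (1 / 3 : ℝ) := Real.rpow_nonneg (by linarith) _
    have hp2 : G ^ (1 / 3 : ℝ) ≤ (n : ℝ) ^ (1 / 3 : ℝ) :=
      Real.rpow_le_rpow (by linarith) hGn (by norm_num)
    have hp3 : (1 : ℝ) ≤ (n : ℝ) ^ (1 / 3 : ℝ) := Real.one_le_rpow hn' (by norm_num)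
    have hlogn : 0 ≤ Real.log n := Real.log_nonneg hn'
    obtain ⟨Z, hZ⟩ : ∃ Z : ℝ, Z = (n : ℝ) ^ (1 / 3 : ℝ) * (Real.log n + 1) := ⟨_, rfl⟩
    have hrsZ : rowSpace τ a (i + 1) ≤ Z := by
      rw [hrs, hZ]
      exact mul_le_mul hp2 (by linarith) (by linarith) (by linarith)
    have hrs0 : 0 ≤ rowSpace τ a (i + 1) := by
      rw [hrs]
      exact mul_nonneg hp1 (by linarith)
    have hlogi : Real.log ((i : ℝ) + 1) + 1 ≤ Z := by
      have h4 : Real.log ((i : ℝ) + 1) ≤ Real.log n := by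
        apply Real.log_le_log (by positivity)
        have : i + 1 ≤ n := hi1.trans hZ1
        exact_mod_cast this
      rw [hZ]
      calc Real.log ((i : ℝ) + 1) + 1 ≤ Real.log n + 1 := by linarith
        _ = 1 * (Real.log n + 1) := by ring
        _ ≤ _ := mul_le_mul_of_nonneg_right hp3 (by linarith)
    rw [← hZ] at hlogX
    have hZ0 : 0 ≤ Z := by
      rw [hZ]
      exact mul_nonneg (by linarith) (by linarith)
    have hsp := hC (i + 1) (by omega)
    have hle : C * rowSpace τ a (i + 1) ≤ |C| * rowSpace τ a (i + 1) :=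
      mul_le_mul_of_nonneg_right (le_abs_self C) hrs0
    refine hsg X i (|C| * rowSpace τ a (i + 1)) (mul_nonneg (abs_nonneg C) hrs0) ?_ ?_
    · intro t ht j
      exact ⟨(hsp t ht j).1.trans_le hle, fun x hx => (hsp t ht j).2 x (hle.trans hx)⟩
    · refine le_trans ?_ hlogX
      have hA0 : (0 : ℝ) ≤ A := Nat.cast_nonneg A
      calc (A : ℝ) * (|C| * rowSpace τ a (i + 1) + Real.log ((i : ℝ) + 1) + 1) ≤
            A * (|C| * Z + Z) := by
            apply mul_le_mul_of_nonneg_left _ hA0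
            have := mul_le_mul_of_nonneg_left hrsZ (abs_nonneg C)
            linarith
        _ = (3 * (A * (|C| + 1))) / 3 * Z := by ring
        _ ≤ (c0 : ℝ) / 3 * Z := by
            apply mul_le_mul_of_nonneg_right _ hZ0
            linarith
        _ ≤ _ := by
            apply mul_le_mul_of_nonneg_right _ hZ0
            have : (c0 : ℝ) ≤ ((8 * q + Q * 1 + M * (K + 1) + c0 : ℕ) : ℝ) := by
              exact_mod_cast Nat.le_add_left _ _
            linarith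
  · rw [← hr, hB2]
    refine le_trans (Nat.pow_le_pow_right (by omega) ?_) hX
    exact Nat.mul_le_mul_right _ (by omega)
  · rw [← hr]
    refine le_trans (RM2.pow_le_aux (B := B) (k := 1) (by omega)) (le_trans
      (Nat.pow_le_pow_right (by omega) ?_) hX)
    rw [← mul_assoc]
    exact Nat.mul_le_mul_right _ (by omega)
  · rw [← hr, hPK]
    refine le_trans (RM2.pow_le_aux (B := B) (k := K + 1) ?_) (le_trans
      (Nat.pow_le_pow_right (by omega) ?_) hX)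
    · have h4 : K * r ≤ K * B := Nat.mul_le_mul_left _ hsB
      have h5 : (K + 1) * B = K * B + B := by ring
      omega
    · rw [← mul_assoc]
      exact Nat.mul_le_mul_right _ (by omega)

end Pool.Agent.TH381.RM3
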