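import Pool.Agent.TH381.RM3.Stage2
import Pool.Agent.TH381.RM2.Letter

/-!
The letter function, with given start states of the rows, in `LS`.
-/

set_option autoImplicit false
set_option linter.unusedVariables false

namespace Pool.Agent.TH381.RM3

open Pool.Agent.H584R2.Dg Pool.Agent.W614.Dg Pool.Agent.H539R2 Pool.Agent.TH381.RM
  Pool.Agent.TH381.RM2

/-- data of the computation -/
structure Data where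
  K : ℕ
  y0 : ℕ
  coa : ℕ
  hB : ℕ → ℕ → ℕ → ℕ → ℕ → ℕ → ℕ
  hd : (ℕ → ℕ) → (ℕ → ℕ) → ℕ → ℕ → ℕ → ℕ
  mp : ℕ → ℕ → ℕ → ℕ
  ln : ℕ → ℕ
  sg : ℕ → ℕ → ℕ

/-- the data are in `LS` -/
structure DataLS (P : Data) : Prop where
  hB : LS (fun ρ => P.hB (ρ 0) (ρ 1) (ρ 2) (ρ 3) (ρ 4) (ρ 5))
  hd : ∀ (G H : ℕ → (ℕ → ℕ) → ℕ) (X k t : (ℕ → ℕ) → ℕ), LS (fun ρ => G (ρ 0) (tl ρ)) →
    LS (fun ρ => H (ρ 0) (tl ρ)) → LS X → LS k → LS t →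
    LS (fun ρ => P.hd (fun c => G c ρ) (fun i => H i ρ) (X ρ) (k ρ) (t ρ))
  mp : LS (fun ρ => P.mp (ρ 0) (ρ 1) (ρ 2))
  ln : LS (fun ρ => P.ln (ρ 0))
  sg : LS (fun ρ => P.sg (ρ 0) (ρ 1))

namespace Data

variable (P : Data)

def h2 (X S i o y t : ℕ) : ℕ := P.hB X (B2 P.K S) i o y t
def D2 (X S i o y : ℕ) : ℕ := cntf (fun t => P.h2 X S i o y t) (T2 P.K S)
def l2 (X S i o y j : ℕ) : ℕ := ltrf (fun t => P.h2 X S i o y t) (T2 P.K S) j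
def h3 (X S i o y k t : ℕ) : ℕ :=
  P.hd (fun c => P.l2 X S i o y c) (fun r => P.sg X (o + i + r)) X k t
def D3 (X S i o y n k : ℕ) : ℕ := cntf (fun t => P.h3 X S i o y k t) (T3 P.K S n)
def l3 (X S i o y n k j : ℕ) : ℕ := ltrf (fun t => P.h3 X S i o y k t) (T3 P.K S n) j

/-- the code of a row -/
def yr (X l : ℕ) : ℕ := nrec P.y0 (fun i acc => min (P.mp X (P.sg X i) acc) X) l

/-- the first loop -/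
def loop1 (X S n : ℕ) : ℕ → ℕ × ℕ := walk (fun x => P.ln (P.yr X x)) S n 1

def x1 (n X : ℕ) : ℕ := (P.loop1 X (cbr n) n (n + 1)).1
def N1 (n X : ℕ) : ℕ := (P.loop1 X (cbr n) n (n + 1)).2
def y1 (n X : ℕ) : ℕ := P.yr X (P.x1 n X)

/-- the second loop -/
def loop2 (X S n o y N : ℕ) : ℕ → ℕ × ℕ := walk (fun x => P.D2 X S x o y) (S * S) n N

def i2 (n X : ℕ) : ℕ := (P.loop2 X (cbr n) n (P.x1 n X) (P.y1 n X) (P.N1 n X) (n + 1)).1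
def N2 (n X : ℕ) : ℕ := (P.loop2 X (cbr n) n (P.x1 n X) (P.y1 n X) (P.N1 n X) (n + 1)).2

/-- the third loop -/
def loop3 (X S n o y i N : ℕ) : ℕ → ℕ × ℕ := walk (fun x => P.D3 X S i o y n x) n n N

def k3 (n X : ℕ) : ℕ :=
  (P.loop3 X (cbr n) n (P.x1 n X) (P.y1 n X) (P.i2 n X) (P.N2 n X) (n + 1)).1
def N3 (n X : ℕ) : ℕ :=
  (P.loop3 X (cbr n) n (P.x1 n X) (P.y1 n X) (P.i2 n X) (P.N2 n X) (n + 1)).2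

/-- the letter -/
def Lt (n X : ℕ) : ℕ := if n = 0 then P.coa else
  P.l3 X (cbr n) (P.i2 n X) (P.x1 n X) (P.y1 n X) n (P.k3 n X) (n - P.N3 n X)

end Data

theorem LS_comp6 {F : ℕ → ℕ → ℕ → ℕ → ℕ → ℕ → ℕ}
    (hF : LS (fun ρ => F (ρ 0) (ρ 1) (ρ 2) (ρ 3) (ρ 4) (ρ 5))) {X B l o y t : (ℕ → ℕ) → ℕ}
    (hX : LS X) (hB : LS B) (hl : LS l) (ho : LS o) (hy : LS y) (ht : LS t) :
    LS (fun ρ => F (X ρ) (B ρ) (l ρ) (o ρ) (y ρ) (t ρ)) :=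
  LS.lett (f := fun ρ' => F (X (tl ρ')) (B (tl ρ')) (l (tl ρ')) (o (tl ρ')) (y (tl ρ')) (ρ' 0)) ht
    (LS.lett (f := fun ρ' => F (X (tl (tl ρ'))) (B (tl (tl ρ'))) (l (tl (tl ρ'))) (o (tl (tl ρ')))
      (ρ' 0) (ρ' 1)) hy.wk
      (LS.lett (f := fun ρ' => F (X (tl (tl (tl ρ')))) (B (tl (tl (tl ρ')))) (l (tl (tl (tl ρ'))))
        (ρ' 0) (ρ' 1) (ρ' 2)) ho.wk.wk
        (LS.lett (f := fun ρ' => F (X (tl (tl (tl (tl ρ'))))) (B (tl (tl (tl (tl ρ'))))) (ρ' 0)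
          (ρ' 1) (ρ' 2) (ρ' 3)) hl.wk.wk.wk
          (LS.lett (f := fun ρ' => F (X (tl (tl (tl (tl (tl ρ')))))) (ρ' 0) (ρ' 1) (ρ' 2) (ρ' 3)
            (ρ' 4)) hB.wk.wk.wk.wk (LS.lett hX.wk.wk.wk.wk.wk hF)))))

namespace Data

variable {P : Data}

section

variable (hP : DataLS P)
include hP

theorem LS_h2 {X S i o y t : (ℕ → ℕ) → ℕ} (hX : LS X) (hS : LS S) (hi : LS i) (ho : LS o)
    (hy : LS y) (ht : LS t) : LS (fun ρ => P.h2 (X ρ) (S ρ) (i ρ) (o ρ) (y ρ) (t ρ)) :=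
  LS_comp6 hP.hB hX ((LS.const (2 * P.K + 3)).mul hS) hi ho hy ht

theorem LS_D2 {X S i o y : (ℕ → ℕ) → ℕ} (hX : LS X) (hS : LS S) (hi : LS i) (ho : LS o)
    (hy : LS y) : LS (fun ρ => P.D2 (X ρ) (S ρ) (i ρ) (o ρ) (y ρ)) :=
  LS_cntf (G := fun t ρ => P.h2 (X ρ) (S ρ) (i ρ) (o ρ) (y ρ) t)
    (LS_h2 hP hX.wk hS.wk hi.wk ho.wk hy.wk (LS.var 0)) (RM2.Data.LS_T2 P.K hS)

theorem LS_l2 {X S i o y j : (ℕ → ℕ) → ℕ} (hX : LS X) (hS : LS S) (hi : LS i) (ho : LS o)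
    (hy : LS y) (hj : LS j) : LS (fun ρ => P.l2 (X ρ) (S ρ) (i ρ) (o ρ) (y ρ) (j ρ)) :=
  LS_ltrf (G := fun t ρ => P.h2 (X ρ) (S ρ) (i ρ) (o ρ) (y ρ) t)
    (fun t k ht => LS_h2 hP (LS_wkn hX k) (LS_wkn hS k) (LS_wkn hi k) (LS_wkn ho k)
      (LS_wkn hy k) ht)
    (RM2.Data.LS_T2 P.K hS) hj

theorem LS_sg {X i : (ℕ → ℕ) → ℕ} (hX : LS X) (hi : LS i) : LS (fun ρ => P.sg (X ρ) (i ρ)) :=
  LS.comp2 (F := P.sg) hP.sg hX hi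

theorem LS_h3 {X S i o y k t : (ℕ → ℕ) → ℕ} (hX : LS X) (hS : LS S) (hi : LS i) (ho : LS o)
    (hy : LS y) (hk : LS k) (ht : LS t) :
    LS (fun ρ => P.h3 (X ρ) (S ρ) (i ρ) (o ρ) (y ρ) (k ρ) (t ρ)) :=
  hP.hd (fun c ρ => P.l2 (X ρ) (S ρ) (i ρ) (o ρ) (y ρ) c) (fun r ρ => P.sg (X ρ) (o ρ + i ρ + r))
    X k t (LS_l2 hP hX.wk hS.wk hi.wk ho.wk hy.wk (LS.var 0))
    (LS_sg hP hX.wk ((ho.wk.add hi.wk).add (LS.var 0))) hX hk ht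

theorem LS_D3 {X S i o y n k : (ℕ → ℕ) → ℕ} (hX : LS X) (hS : LS S) (hi : LS i) (ho : LS o)
    (hy : LS y) (hn : LS n) (hk : LS k) :
    LS (fun ρ => P.D3 (X ρ) (S ρ) (i ρ) (o ρ) (y ρ) (n ρ) (k ρ)) :=
  LS_cntf (G := fun t ρ => P.h3 (X ρ) (S ρ) (i ρ) (o ρ) (y ρ) (k ρ) t)
    (LS_h3 hP hX.wk hS.wk hi.wk ho.wk hy.wk hk.wk (LS.var 0)) (RM2.Data.LS_T3 P.K hS hn)

theorem LS_l3 {X S i o y n k j : (ℕ → ℕ) → ℕ} (hX : LS X) (hS : LS S) (hi : LS i) (ho : LS o)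
    (hy : LS y) (hn : LS n) (hk : LS k) (hj : LS j) :
    LS (fun ρ => P.l3 (X ρ) (S ρ) (i ρ) (o ρ) (y ρ) (n ρ) (k ρ) (j ρ)) :=
  LS_ltrf (G := fun t ρ => P.h3 (X ρ) (S ρ) (i ρ) (o ρ) (y ρ) (k ρ) t)
    (fun t m ht => LS_h3 hP (LS_wkn hX m) (LS_wkn hS m) (LS_wkn hi m) (LS_wkn ho m)
      (LS_wkn hy m) (LS_wkn hk m) ht) (RM2.Data.LS_T3 P.K hS hn) hj

theorem LS_ln {x : (ℕ → ℕ) → ℕ} (hx : LS x) : LS (fun ρ => P.ln (x ρ)) :=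
  LS.comp1 (F := P.ln) hP.ln hx

theorem LS_mp {X s x : (ℕ → ℕ) → ℕ} (hX : LS X) (hs : LS s) (hx : LS x) :
    LS (fun ρ => P.mp (X ρ) (s ρ) (x ρ)) :=
  LS.comp3 (F := P.mp) hP.mp hX hs hx

theorem LS_yr {X l : (ℕ → ℕ) → ℕ} (hX : LS X) (hl : LS l) : LS (fun ρ => P.yr (X ρ) (l ρ)) := by
  refine LS.nrecB (c := l) (a := fun _ => P.y0)
    (b := fun i acc ρ => Nat.min (P.mp (X ρ) (P.sg (X ρ) i) acc) (X ρ))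
    (g := fun ρ => P.y0 + X ρ) hl (LS.const _)
    (LS.min (LS_mp hP hX.wk.wk (LS_sg hP hX.wk.wk (LS.var 1)) (LS.var 0)) hX.wk.wk)
    ((LS.const _).add hX) ?_
  intro ρ m _
  cases m with
  | zero =>
    show P.y0 ≤ P.y0 + X ρ
    omega
  | succ m =>
    rw [nrec_succ]
    exact (Nat.min_le_right _ _).trans (Nat.le_add_left _ _)

theorem LS_loop1 {X S n c : (ℕ → ℕ) → ℕ} (hX : LS X) (hS : LS S) (hn : LS n) (hc : LS c) :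
    LS (fun ρ => (P.loop1 (X ρ) (S ρ) (n ρ) (c ρ)).1) ∧
    LS (fun ρ => (P.loop1 (X ρ) (S ρ) (n ρ) (c ρ)).2) :=
  LS_walk (D := fun x ρ => P.ln (P.yr (X ρ) x)) hc hS hn (LS.const 1)
    (fun x hx => LS_ln hP (LS_yr hP hX.wk.wk hx))

theorem LS_loop2 {X S n o y N c : (ℕ → ℕ) → ℕ} (hX : LS X) (hS : LS S) (hn : LS n) (ho : LS o)
    (hy : LS y) (hN : LS N) (hc : LS c) :
    LS (fun ρ => (P.loop2 (X ρ) (S ρ) (n ρ) (o ρ) (y ρ) (N ρ) (c ρ)).1) ∧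
    LS (fun ρ => (P.loop2 (X ρ) (S ρ) (n ρ) (o ρ) (y ρ) (N ρ) (c ρ)).2) :=
  LS_walk (D := fun x ρ => P.D2 (X ρ) (S ρ) x (o ρ) (y ρ)) hc (hS.mul hS) hn hN
    (fun x hx => LS_D2 hP hX.wk.wk hS.wk.wk hx ho.wk.wk hy.wk.wk)

theorem LS_loop3 {X S n o y i N c : (ℕ → ℕ) → ℕ} (hX : LS X) (hS : LS S) (hn : LS n) (ho : LS o)
    (hy : LS y) (hi : LS i) (hN : LS N) (hc : LS c) :
    LS (fun ρ => (P.loop3 (X ρ) (S ρ) (n ρ) (o ρ) (y ρ) (i ρ) (N ρ) (c ρ)).1) ∧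
    LS (fun ρ => (P.loop3 (X ρ) (S ρ) (n ρ) (o ρ) (y ρ) (i ρ) (N ρ) (c ρ)).2) :=
  LS_walk (D := fun x ρ => P.D3 (X ρ) (S ρ) (i ρ) (o ρ) (y ρ) (n ρ) x) hc hn hn hN
    (fun x hx => LS_D3 hP hX.wk.wk hS.wk.wk hi.wk.wk ho.wk.wk hy.wk.wk hn.wk.wk hx)

theorem LS_Lt : LS (fun ρ => P.Lt (ρ 0) (ρ 1)) := by
  have hn : LS (fun ρ => ρ 0) := LS.var 0
  have hX : LS (fun ρ => ρ 1) := LS.var 1
  have hS := LS_cbr hn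
  have h1 := LS_loop1 hP hX hS hn hn.succ
  have hy := LS_yr hP hX h1.1
  have h2 := LS_loop2 hP hX hS hn h1.1 hy h1.2 hn.succ
  have h3 := LS_loop3 hP hX hS hn h1.1 hy h2.1 h2.2 hn.succ
  exact LS.ite (LSP.eq hn LS.zero) (LS.const P.coa)
    (LS_l3 hP hX hS h2.1 h1.1 hy hn h3.1 (hn.sub h3.2))

end

end Data

end Pool.Agent.TH381.RM3
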