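import Pool.Agent.TH381.RM3.Per
import Pool.Agent.TH440.RM3.Mach
import Pool.Agent.TH412.RM3.Conv

/-!
The space for words of arbitrary dgsm's in terms of the start states of the rows.
-/

set_option autoImplicit false

namespace Pool.Agent.TH381.RM3

open Pool.Agent.H584R2.Dg Pool.Agent.W614.Dg Pool.Agent.H539R2 Pool.Agent.TH381.RM
  Pool.Agent.TH381.RM2

/-- `s` drives the iteration: reading a block starting in the state `s l` gives the next block. -/
def Drives {S : Type} (τ : Dgsm S) (a : S) (s : ℕ → τ.Q) : Prop :=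
  ∀ l, τ.run (s l) (blk τ a l) = blk τ a (l + 1)

theorem drives_space {S : Type} [Finite S] (τ : Dgsm S) (a : S) (w : ℕ → S)
    (hne : τ.NonErasing) (hw : τ.IsLimit a w) (s : ℕ → τ.Q) (hs : Drives τ a s)
    (hsp : InSpace (rowSpace τ a) s) :
    InSpace (fun n => (n : ℝ) ^ (1 / 3 : ℝ) * (Real.log n + 1)) w := by
  obtain ⟨u, hu, hune⟩ := Dg.IsLimit.exists_out hne hw
  refine inSpace_seq TH440.RM3.mach τ a w hne hw s hu hune ?_ hsp
  intro l
  have := hs l
  rwa [blk_eq hu, blk_eq hu] at this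

theorem drives_states {S : Type} {τ : Dgsm S} {a : S} {w : ℕ → S} (hne : τ.NonErasing)
    (hw : τ.IsLimit a w) : Drives τ a (states τ a) := by
  obtain ⟨u, hu, hune⟩ := Dg.IsLimit.exists_out hne hw
  intro l
  rw [blk_eq hu, blk_eq hu]
  exact states_drive hu l

theorem drives_marker {S : Type} {τ : Dgsm S} {a h : S} (hr : RowMarker τ a h) :
    Drives τ a (fun _ => τ.init) := by
  obtain ⟨u, hu⟩ := hr.start
  intro l
  rw [blk_eq hu, blk_eq hu]
  exact marker_drive hr hu l

theorem space_iff {S : Type} [Finite S] (τ : Dgsm S) (a : S) (w : ℕ → S)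
    (hne : τ.NonErasing) (hw : τ.IsLimit a w) :
    InSpace (fun n => (n : ℝ) ^ (1 / 3 : ℝ) * (Real.log n + 1)) w ↔
      InSpace (rowSpace τ a) (states τ a) :=
  ⟨fun H => TH412.RM3.conv TH440.RM3.mach S τ a w hne hw H,
    fun H => drives_space τ a w hne hw _ (drives_states hne hw) H⟩

theorem per_space {S : Type} [Finite S] (τ : Dgsm S) (a : S) (w : ℕ → S)
    (hne : τ.NonErasing) (hw : τ.IsLimit a w) (s : ℕ → τ.Q) (hs : Drives τ a s) (p k : ℕ)
    (hk : 1 ≤ k) (hper : ∀ l, p ≤ l → s (l + k) = s l) :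
    InSpace (fun n => (n : ℝ) ^ (1 / 3 : ℝ) * (Real.log n + 1)) w := by
  have := τ.finQ
  obtain ⟨u, hu, hune⟩ := Dg.IsLimit.exists_out hne hw
  exact drives_space τ a w hne hw s hs
    (inSpace_per s p k hk hper _ (fun n _ => rowSpace_ge hne hu hune n))

end Pool.Agent.TH381.RM3
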