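import Pool.Agent.TH381.RM3.Final

/-!
Eventually periodic sequences of start states; blocks.
-/

set_option autoImplicit false

namespace Pool.Agent.TH381.RM3

open Pool.Agent.H584R2.Dg Pool.Agent.W614.Dg Pool.Agent.H539R2 Pool.Agent.TH381.RM
  Pool.Agent.TH381.RM2

/-- Eventually periodic words are generated in constant space. -/
theorem inSpace_per {Q : Type} [Finite Q] (s : ℕ → Q) (p k : ℕ) (hk : 1 ≤ k)
    (hper : ∀ l, p ≤ l → s (l + k) = s l) (g : ℕ → ℝ) (hg : ∀ n, 1 ≤ n → 1 ≤ g n) :
    InSpace g s := by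
  obtain ⟨M, co, e, h0, h1, h2, h3⟩ := exists_letters Q
  have hM : 0 < M := by have := h2 none; omega
  obtain ⟨F, hF⟩ : ∃ F : ℕ → ℕ, F = fun z => if z + 1 < p + k then z + 1 else p := ⟨_, rfl⟩
  obtain ⟨L, hL⟩ : ∃ L : ℕ → ℕ, L = fun z => dg M (digs M (p + k) (fun z => co (some (s z)))) z :=
    ⟨_, rfl⟩
  have hFs : ∀ z, F z = if z + 1 < p + k then z + 1 else p := by intro z; rw [hF]
  have hFLS : LS (fun ρ => F (ρ 0)) := by
    rw [hF]
    exact LS.ite (LSP.lt (LS.var 0).succ (LS.const (p + k))) (LS.var 0).succ (LS.const p)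
  have hLLS : LS (fun ρ => L (ρ 0)) := by
    rw [hL]
    exact LS.dg (LS.const M) (LS.const _) (LS.var 0)
  have hit : ∀ t, F^[t] 0 < p + k ∧ s (F^[t] 0) = s t := by
    intro t
    induction t with
    | zero => exact ⟨by show 0 < p + k; omega, rfl⟩
    | succ t ih =>
      obtain ⟨i1, i2⟩ := ih
      rw [Function.iterate_succ_apply', hFs]
      have key : ∀ t, F^[t] 0 ≤ t ∧ (F^[t] 0 = t ∨ p ≤ F^[t] 0) ∧
          ∃ c, t = F^[t] 0 + c * k := by
        intro t
        induction t with
        | zero => exact ⟨le_rfl, Or.inl rfl, 0, by simp⟩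
        | succ t ih =>
          obtain ⟨j1, j2, c, hc⟩ := ih
          rw [Function.iterate_succ_apply', hFs]
          by_cases hlt : F^[t] 0 + 1 < p + k
          · rw [if_pos hlt]
            refine ⟨by omega, ?_, c, by omega⟩
            rcases j2 with j2 | j2
            · left; omega
            · right; omega
          · rw [if_neg hlt]
            have hlt2 : F^[t] 0 < p + k := by
              have : ∀ t, F^[t] 0 < p + k := by
                intro t
                induction t with
                | zero => show 0 < p + k; omega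
                | succ t ih =>
                  rw [Function.iterate_succ_apply', hFs]
                  split_ifs <;> omega
              exact this t
            refine ⟨by omega, Or.inr le_rfl, c + 1, ?_⟩
            have : (c + 1) * k = c * k + k := by ring
            omega
      have hper' : ∀ c l, p ≤ l → s (l + c * k) = s l := by
        intro c
        induction c with
        | zero => intro l _; simp
        | succ c ih =>
          intro l hl
          have : l + (c + 1) * k = (l + c * k) + k := by ring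
          rw [this, hper _ (by omega), ih l hl]
      have hkey := key (t + 1)
      rw [Function.iterate_succ_apply', hFs] at hkey
      constructor
      · split_ifs <;> omega
      · obtain ⟨-, k2, c, hc⟩ := hkey
        rcases k2 with k2 | k2
        · rw [k2]
        · conv_rhs => rw [hc]
          rw [hper' c _ k2]
  have hlet : ∀ t, e (L (F^[t] 0)) = some (s t) := by
    intro t
    obtain ⟨i1, i2⟩ := hit t
    rw [hL]
    show e (dg M (digs M (p + k) (fun z => co (some (s z)))) (F^[t] 0)) = _
    rw [dg_digs M (p + k) hM _ (fun _ _ => h2 _) _ i1, h3, i2]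
  have hlist : ∀ t, (List.range t).filterMap (fun i => e (L (F^[i] 0))) =
      (List.range t).map s := by
    intro t
    rw [← List.filterMap_eq_map]
    apply List.filterMap_congr
    intro i _
    exact hlet i
  apply inSpace_const (Real.log ((p + k : ℕ) + 2))
  refine TH751.RM.gen Q F L M e 0 s _ hFLS hLLS ?_ ?_ ?_ ?_
  · intro z
    rw [hL]
    exact (dg_lt _ _ _ hM).le
  · intro t
    rw [hlist]
    exact map_range_isPre s t
  · intro n
    refine ⟨n, ?_⟩
    rw [hlist]
    simp
  · intro n hn t _
    have h5 : Real.log ((F^[t] 0 : ℕ) + 2) ≤ Real.log ((p + k : ℕ) + 2) := by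
      apply Real.log_le_log (by positivity)
      have : ((F^[t] 0 : ℕ) : ℝ) ≤ ((p + k : ℕ) : ℝ) := by exact_mod_cast (hit t).1.le
      linarith
    have h6 : 0 ≤ Real.log (((p + k : ℕ) : ℝ) + 2) := Real.log_nonneg (by
      have : (0 : ℝ) ≤ ((p + k : ℕ) : ℝ) := Nat.cast_nonneg _
      linarith)
    nlinarith [hg n hn, mul_nonneg h6 (sub_nonneg.2 (hg n hn))]

/-- The word with `τ^(l + 1)(a) = τ^l(a) blk`. -/
def blk {S : Type} (τ : Dgsm S) (a : S) (l : ℕ) : List S :=
  (τ.map^[l + 1] [a]).drop (τ.map^[l] [a]).length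

theorem blk_eq {S : Type} {τ : Dgsm S} {a : S} {u : List S} (hu : τ.out τ.init a = a :: u)
    (l : ℕ) : blk τ a l = (Dg.cb τ (τ.next τ.init a) u l).2 := by
  unfold blk
  rw [(Dg.map_iter hu l).1, List.drop_left]

theorem rowSpace_ge {S : Type} {τ : Dgsm S} {a : S} {u : List S} (hne : τ.NonErasing)
    (hu : τ.out τ.init a = a :: u) (hune : u ≠ []) (n : ℕ) : 1 ≤ rowSpace τ a n := by
  have h1 : 1 ≤ (τ.map^[n - 1] [a]).length :=
    (Nat.le_add_left _ _).trans (Dg.iter_length hne hu hune (n - 1))
  have h2 : (1 : ℝ) ≤ ((τ.map^[n - 1] [a]).length : ℝ) := by exact_mod_cast h1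
  unfold rowSpace
  have h3 : (1 : ℝ) ≤ ((τ.map^[n - 1] [a]).length : ℝ) ^ (1 / 3 : ℝ) :=
    Real.one_le_rpow h2 (by norm_num)
  have h4 : 0 ≤ Real.log ((τ.map^[n - 1] [a]).length : ℝ) := Real.log_nonneg h2
  nlinarith

theorem states_drive {S : Type} {τ : Dgsm S} {a : S} {u : List S}
    (hu : τ.out τ.init a = a :: u) (l : ℕ) :
    τ.run (states τ a l) (Dg.cb τ (τ.next τ.init a) u l).2 =
      (Dg.cb τ (τ.next τ.init a) u (l + 1)).2 := by
  unfold states
  rw [(Dg.map_iter hu l).2]
  rfl

theorem marker_drive {S : Type} {τ : Dgsm S} {a h : S} (hr : RowMarker τ a h) {u : List S}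
    (hu : τ.out τ.init a = a :: h :: u) (l : ℕ) :
    τ.run τ.init (Dg.cb τ (τ.next τ.init a) (h :: u) l).2 =
      (Dg.cb τ (τ.next τ.init a) (h :: u) (l + 1)).2 := by
  rw [(RM.rows hr u l).1, (RM.rows hr u (l + 1)).1, Function.iterate_succ_apply']
  rfl

end Pool.Agent.TH381.RM3
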