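import Pool.Agent.TH381.RM3.Defs
import Pool.Agent.TH381.RM2.Walk

/-!
The second stage, with given start states: the letters in front as an `LS` function.
-/

set_option autoImplicit false

namespace Pool.Agent.TH381.RM3

open Pool.Agent.H584R2.Dg Pool.Agent.W614.Dg Pool.Agent.H539R2 Pool.Agent.TH381.RM
  Pool.Agent.TH381.RM2

theorem cy_eq {S : Type} {τ : Dgsm S} {s : ℕ → τ.Q} {y : List S} {l K M : ℕ}
    {co : Option S → ℕ} {e : ℕ → Option S} (hco : Coding M co e)
    (hdig : ∀ v i, dg M (cl M co v) i = co (v[i]?))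
    {q : ℕ} (hq : 0 < q) {en : Cell (belt τ) → ℕ} {de : ℕ → Cell (belt τ)} (hen : ∀ x, en x < q)
    (hde : ∀ x, (buf x).length ≤ K → de (en x) = x)
    (hb : ∀ t i, (buf (cb τ s y l t i)).length ≤ K) {sg : ℕ → ℕ}
    (hsg : ∀ j < l, sg j = en (some (some (s j), []))) (t : ℕ) : ∀ i,
    cy (fun x y z => en (rule (belt τ) (de x) (de y) (de z))) q
      (digs q M (fun m => en (some (none, (e m).toList)))) (en none) sg M (cl M co y) l t i =
        en (cb τ s y l t i) := by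
  induction t with
  | zero =>
    intro i
    unfold cy cb
    by_cases h1 : 1 ≤ i
    · rw [if_pos h1, if_pos h1]
    · rw [if_neg h1, if_neg h1]
      by_cases h2 : i + l ≤ 0
      · rw [if_pos h2, if_pos h2, hdig, dg_digs q M hq _ (fun _ _ => hen _) _ (hco.lt _), hco.inv]
      · rw [if_neg h2, if_neg h2]
        apply hsg
        omega
  | succ t ih =>
    intro i
    unfold cy cb
    rw [ih, ih, ih, hde _ (hb _ _), hde _ (hb _ _), hde _ (hb _ _)]

theorem stage2 (hbelt : SBelt) (hsim : SSimB) {S : Type} [Finite S] (τ : Dgsm S) {K M n0 : ℕ}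
    {co : Option S → ℕ} {e : ℕ → Option S} {cq : τ.Q → ℕ} {dq : ℕ → τ.Q} (hne : τ.NonErasing)
    (hK : ∀ q x, (τ.out q x).length ≤ K) (hK1 : 1 ≤ K) (hco : Coding M co e)
    (hcq : QCoding n0 cq dq) (hdig : ∀ v i, dg M (cl M co v) i = co (v[i]?))
    (sg : ℕ → ℕ → ℕ) (hsg : LS (fun ρ => sg (ρ 0) (ρ 1))) :
    ∃ (q : ℕ) (hB : ℕ → ℕ → ℕ → ℕ → ℕ → ℕ → ℕ), 1 ≤ q ∧
      LS (fun ρ => hB (ρ 0) (ρ 1) (ρ 2) (ρ 3) (ρ 4) (ρ 5)) ∧
      ∀ X B l o t y (s : ℕ → τ.Q), 1 ≤ B → t < B * B → (48 * B + 24) ^ (8 * q * B) ≤ X →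
        (∀ j < l, sg X (o + j) = cq (s j)) →
        hB X B l o (cl M co y) t = co (buf (cb τ s y l t 0)).head? := by
  classical
  obtain ⟨q, en, de, hen, hde⟩ := exists_code (belt τ) K
  have hM : 0 < M := by have := hco.lt none; omega
  have hq : 0 < q := by have := hen none; omega
  obtain ⟨sgc, hsgc⟩ : ∃ sgc : ℕ → ℕ → ℕ, sgc = fun X i =>
    dg q (digs q (n0 + 1) (fun m => en (some (some (dq m), [])))) (Nat.min (sg X i) n0) := ⟨_, rfl⟩
  have hsgcLS : LS (fun ρ => sgc (ρ 0) (ρ 1)) := by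
    rw [hsgc]
    exact LS.dg (LS.const q) (LS.const _) (LS.min hsg (LS.const n0))
  have hsgcok : ∀ X i q', sg X i = cq q' → sgc X i = en (some (some q', [])) := by
    intro X i q' h
    rw [hsgc]
    show dg q _ (Nat.min (sg X i) n0) = _
    rw [h]
    have h1 : Nat.min (cq q') n0 = cq q' := min_eq_left (hcq.lt q').le
    rw [h1, dg_digs q (n0 + 1) hq _ (fun _ _ => hen _) _ ((hcq.lt q').trans (Nat.lt_succ_self _)),
      hcq.inv]
  obtain ⟨St, hLS, hSt⟩ := hsim q M (fun x y z => en (rule (belt τ) (de x) (de y) (de z)))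
    (digs q M (fun m => en (some (none, (e m).toList)))) (en none) sgc hsgcLS (hen _)
    (fun X i => by rw [hsgc]; exact dg_lt _ _ _ hq) (fun _ _ _ _ _ _ => hen _)
  refine ⟨q, fun X B l o y t => dg M (digs M q (fun s => co (buf (de s)).head?))
    (St X B l o y t), hq, ?_, ?_⟩
  · exact LS.dg (LS.const M) (LS.const _) hLS
  · intro X B l o t y s hB ht hX hs
    have hcell : ∀ t i, (buf (cb τ s y l t i)).length ≤ K := (hbelt S τ s y l hne).2 K hK1 hK
    show dg M (digs M q (fun s => co (buf (de s)).head?)) (St X B l o (cl M co y) t) = _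
    rw [hSt X B l o _ t hB ht hX, cy_eq hco hdig hq hen hde hcell
      (fun j hj => hsgcok X (o + j) (s j) (hs j hj)),
      dg_digs M q hM _ (fun _ _ => hco.lt _) _ (hen _), hde _ (hcell _ _)]

end Pool.Agent.TH381.RM3
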